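import Mathlib
import Pool.Agent.R463.EX13

set_option autoImplicit false

/-!
# The exact local structure of the almost prime differences of consecutive cubes

Uniformly in all progressions `n = q m + b`, `q` up to any power of `X`, and in all short intervals.
-/

namespace Pool.Agent.Results.MP_22d6bb_nt.ExactBlocks

open Finset Filter

/-- for `n = q m + b` the number `3 n ^ 2 + 3 n + 1` has no prime factor `p ≤ X ^ (1 / r)` -/
def Good (q b X r m : ℕ) : Prop :=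
  ∀ p : ℕ, p.Prime → (p : ℝ) ≤ (X : ℝ) ^ (1 / (r : ℝ)) → ¬ p ∣ 3 * (q * m + b) ^ 2 + 3 * (q * m + b) + 1

/-- `0` for the prime factors of `q`, otherwise the number of the roots of `3 n ^ 2 + 3 n + 1` modulo `p` -/
def nu (q p : ℕ) : ℕ := if p ∣ q then 0 else ((range p).filter (fun n : ℕ => p ∣ 3 * n ^ 2 + 3 * n + 1)).card

/-- the density: the product of `1 - nu(p) / p` over the primes `p ≤ X ^ (1 / r)` -/
noncomputable def V (q X r : ℕ) : ℝ :=
  ∏ p ∈ (Icc 1 ⌊(X : ℝ) ^ (1 / (r : ℝ))⌋₊).filter Nat.Prime, (1 - (nu q p : ℝ) / p)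

/-- the product of `1 - nu(p) / p`, with `nu` for the modulus `1`, over the prime factors `p` of `q` -/
noncomputable def kappa (q : ℕ) : ℝ := ∏ p ∈ q.primeFactors, (1 - (nu 1 p : ℝ) / p)

lemma dvd_iff (p n : ℕ) : (p : ℤ) ∣ (3 : ℤ) * (n : ℤ) ^ 2 + (3 : ℤ) * n + (1 : ℤ) ↔ p ∣ 3 * n ^ 2 + 3 * n + 1 := by
  rw [← Int.natCast_dvd_natCast (m := p)]
  push_cast
  exact Iff.of_eq (congrArg _ (by ring))

lemma good_iff (q b X r m : ℕ) : Good q b X r m ↔ Pool.Agent.R463.QA.GoodQ 3 3 1 q b X r m := by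
  unfold Good Pool.Agent.R463.QA.GoodQ
  apply forall_congr'
  intro p
  have h := dvd_iff p (q * m + b)
  push_cast at h
  rw [h]

lemma nu_eq (q p : ℕ) : nu q p = Pool.Agent.R463.QA.nuQ 3 3 1 q p := by
  classical
  unfold nu Pool.Agent.R463.QA.nuQ
  have : (range p).filter (fun n : ℕ => p ∣ 3 * n ^ 2 + 3 * n + 1) =
      (range p).filter (fun n : ℕ => (p : ℤ) ∣ (3 : ℤ) * (n : ℤ) ^ 2 + (3 : ℤ) * n + (1 : ℤ)) :=
    filter_congr fun n _ => (dvd_iff p n).symm
  rw [this]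

lemma V_eq (q X r : ℕ) : V q X r = Pool.Agent.R463.QA.VQ 3 3 1 q X r := by
  unfold V Pool.Agent.R463.QA.VQ
  simp only [nu_eq]

lemma kappa_eq (q : ℕ) : kappa q = Pool.Agent.R463.QA.kap 3 3 1 q := by
  unfold kappa Pool.Agent.R463.QA.kap
  simp only [nu_eq]

lemma adm : Pool.Agent.R463.QA.Adm 3 3 1 where
  pos := by norm_num
  prim := fun p hp h => by
    have h1 : p ∣ 1 := by exact_mod_cast h.2.2
    exact hp.one_lt.ne' (Nat.dvd_one.1 h1)
  par := by decide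
  disc := by
    rintro ⟨m, hm⟩
    nlinarith [mul_self_nonneg m]


open Classical in
/-- the number of the residues `m` modulo `p` for which `p` divides `3 n ^ 2 + 3 n + 1` for an
`n = q (m + h) + b`, `h ∈ H` -/
noncomputable def nuH (q b : ℕ) (H : Finset ℕ) (p : ℕ) : ℕ :=
  ((range p).filter (fun m : ℕ => ∃ h ∈ H, p ∣ 3 * (q * (m + h) + b) ^ 2 + 3 * (q * (m + h) + b) + 1)).card

/-- the density of the pattern: the product of `1 - nuH(p) / p` over the primes `p ≤ X ^ (1 / r)` -/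
noncomputable def VH (q b : ℕ) (H : Finset ℕ) (X r : ℕ) : ℝ :=
  ∏ p ∈ (Icc 1 ⌊(X : ℝ) ^ (1 / (r : ℝ))⌋₊).filter Nat.Prime, (1 - (nuH q b H p : ℝ) / p)

open Classical in
/-- the number of the `m` in `(Z, Z + Y]` for which the good integers in `[m, m + L]` are exactly the
integers `m + h` with `h ∈ H` -/
noncomputable def Blocks (q b : ℕ) (H : Finset ℕ) (L X r Z Y : ℕ) : ℕ :=
  ((Ioc Z (Z + Y)).filter (fun m => ∀ h ≤ L, Good q b X r (m + h) ↔ h ∈ H)).card

lemma VH_eq (q b : ℕ) (H : Finset ℕ) (X r : ℕ) :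
    VH q b H X r = Pool.Agent.R463.QA.VQH 3 3 1 q b H X r := by
  classical
  unfold VH Pool.Agent.R463.QA.VQH
  apply prod_congr rfl
  intro p _
  have : nuH q b H p = Pool.Agent.R463.QA.nuQH 3 3 1 q b H p := by
    unfold nuH Pool.Agent.R463.QA.nuQH
    congr 1
    ext m
    simp only [mem_filter]
    refine and_congr_right fun _ => exists_congr fun h => and_congr_right fun _ => ?_
    have h1 := dvd_iff p (q * (m + h) + b)
    push_cast at h1 ⊢
    exact h1.symm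
  rw [this]

lemma Blocks_eq (q b : ℕ) (H : Finset ℕ) (L X r Z Y : ℕ) :
    Blocks q b H L X r Z Y = Pool.Agent.R463.QA.BQ 3 3 1 q b H L X r Z Y := by
  classical
  unfold Blocks Pool.Agent.R463.QA.BQ
  congr 1
  ext n
  simp only [mem_filter, good_iff]

/-- **The exact local structure of the almost prime values of `3 n ^ 2 + 3 n + 1` in progressions.** For every
natural `A`, `K`, `θ > 0`, `x₀` and `ε > 0` there is `r₀` such that for all `r ≥ r₀`, all `B > 0` and all large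
`X` the following holds uniformly for ALL moduli `1 ≤ q ≤ X ^ A` with `κ(q) ≥ 1 / B` and ALL residues
`b ≤ X ^ A` for which `q` is prime to the value at `b`, for ALL intervals `(Z, Z + Y]` with `Y ≥ X ^ θ`, ALL
sets `H` of at most `K` natural numbers with `0 ∈ H` and all `L ≥ max H` with `L V ≤ x₀`: the number of the
`m` in the interval for which the good integers in `[m, m + L]` are exactly the `m + h`, `h ∈ H`, is
`Y VH exp (- L V)`, up to the factor `1 ± ε`. -/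
theorem result (A K : ℕ) (θ : ℝ) (hθ : 0 < θ) (x₀ ε : ℝ) (hε : 0 < ε) :
    ∃ r₀ : ℕ, ∀ r : ℕ, r₀ ≤ r → ∀ B : ℝ, 0 < B → ∀ᶠ X : ℕ in atTop, ∀ q b : ℕ, 1 ≤ q → q ≤ X ^ A →
        b ≤ X ^ A → Nat.Coprime q (3 * b ^ 2 + 3 * b + 1) → 1 ≤ B * kappa q →
        ∀ Z Y : ℕ, (X : ℝ) ^ θ ≤ Y → ∀ H : Finset ℕ, H.card ≤ K → 0 ∈ H → ∀ L : ℕ,
          (∀ h ∈ H, h ≤ L) → L * V q X r ≤ x₀ →
          |(Blocks q b H L X r Z Y : ℝ) - Y * VH q b H X r * Real.exp (-(L * V q X r))| ≤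
            ε * (Y * VH q b H X r * Real.exp (-(L * V q X r))) := by
  obtain ⟨r₀, h⟩ := Pool.Agent.R463.QA.blocksQ 3 3 1 adm A K θ hθ x₀ ε hε
  refine ⟨r₀, fun r hr B hB => ?_⟩
  filter_upwards [h r hr B hB] with X h1 q b hq hqX hbX hcop hk Z Y hY H hH h0 L hL hx
  have hcop' : IsCoprime (q : ℤ) ((3 : ℤ) * (b : ℤ) ^ 2 + (3 : ℤ) * b + (1 : ℤ)) := by
    have h5 := Nat.isCoprime_iff_coprime.2 hcop
    push_cast at h5
    have e : ((3 : ℤ) * (b : ℤ) ^ 2 + (3 : ℤ) * b + (1 : ℤ)) = 3 * (b : ℤ) ^ 2 + 3 * (b : ℤ) + 1 := by ring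
    rw [e]
    exact h5
  rw [kappa_eq] at hk
  rw [V_eq] at hx ⊢
  rw [Blocks_eq, VH_eq]
  exact h1 q b hq hqX hbX hcop' hk Z Y hY H hH h0 L hL hx

end Pool.Agent.Results.MP_22d6bb_nt.ExactBlocks
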