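import Mathlib
import Pool.Agent.R490.PrimeArg

set_option autoImplicit false

/-!
# Differences of consecutive cubes at prime arguments

The primes `n` for which `3 n ^ 2 + 3 n + 1` has no small prime factor: their number, and the Poisson law for
the good integers which follow them.
-/

namespace Pool.Agent.Results.MP_22d6bb_nt.PrimeArguments

open Finset Filter

/-- `3 n ^ 2 + 3 n + 1` has no prime factor `p ≤ N ^ (1 / r)` -/
def Rough (N r n : ℕ) : Prop :=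
  ∀ p : ℕ, p.Prime → (p : ℝ) ≤ (N : ℝ) ^ (1 / (r : ℝ)) → ¬ p ∣ 3 * n ^ 2 + 3 * n + 1

/-- neither `n` nor `3 n ^ 2 + 3 n + 1` has a prime factor `p ≤ N ^ (1 / r)` -/
def Good (N r n : ℕ) : Prop :=
  ∀ p : ℕ, p.Prime → (p : ℝ) ≤ (N : ℝ) ^ (1 / (r : ℝ)) → ¬ p ∣ n ∧ ¬ p ∣ 3 * n ^ 2 + 3 * n + 1

/-- the number of the residues `n` modulo `p` for which `p` divides `n` or `3 n ^ 2 + 3 n + 1` -/
def nu (p : ℕ) : ℕ := ((range p).filter (fun n : ℕ => p ∣ n ∨ p ∣ 3 * n ^ 2 + 3 * n + 1)).card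

/-- the product of `1 - nu(p) / p` over the primes `p ≤ N ^ (1 / r)` -/
noncomputable def V (N r : ℕ) : ℝ :=
  ∏ p ∈ (range (⌊(N : ℝ) ^ (1 / (r : ℝ))⌋₊ + 1)).filter Nat.Prime, (1 - (nu p : ℝ) / p)

/-- the product of `(1 - nu(p) / p) / (1 - 1 / p)` over the primes `p ≤ N ^ (1 / r)` -/
noncomputable def W (N r : ℕ) : ℝ :=
  ∏ p ∈ (range (⌊(N : ℝ) ^ (1 / (r : ℝ))⌋₊ + 1)).filter Nat.Prime,
    (1 - (nu p : ℝ) / p) / (1 - 1 / (p : ℝ))

open Classical in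
/-- the PRIMES `n > N ^ (1 / r)` in `(u, u + Y]` for which `3 n ^ 2 + 3 n + 1` has no prime factor
`≤ N ^ (1 / r)` -/
noncomputable def P (N r u Y : ℕ) : Finset ℕ :=
  (Ioc u (u + Y)).filter (fun n => n.Prime ∧ (N : ℝ) ^ (1 / (r : ℝ)) < n ∧ Rough N r n)

open Classical in
/-- the number of the good integers in `(n, n + T]` -/
noncomputable def Next (N r T n : ℕ) : ℕ := ((Ioc n (n + T)).filter (fun m => Good N r m)).card

/-- the function -/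
def q (x : ℤ) : ℤ := (3 : ℤ) * x ^ 2 + (3 : ℤ) * x + (1 : ℤ)

lemma dvd_iff (p n : ℕ) : (p : ℤ) ∣ q (n : ℤ) ↔ p ∣ 3 * n ^ 2 + 3 * n + 1 := by
  unfold q
  rw [← Int.natCast_dvd_natCast (m := p)]
  push_cast
  exact Iff.of_eq (congrArg _ (by ring))

lemma le_iff (N r p : ℕ) : p ≤ ⌊(N : ℝ) ^ (1 / (r : ℝ))⌋₊ ↔ (p : ℝ) ≤ (N : ℝ) ^ (1 / (r : ℝ)) :=
  Nat.le_floor_iff (by positivity)

lemma nu_eq (p : ℕ) (inst : DecidablePred (fun m : ℕ => p ∣ m ∨ (p : ℤ) ∣ q (m : ℤ))) :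
    nu p = (@Finset.filter ℕ (fun m : ℕ => p ∣ m ∨ (p : ℤ) ∣ q (m : ℤ)) inst (range p)).card := by
  unfold nu
  congr 1
  ext n
  simp only [mem_filter, dvd_iff]

lemma V_eq (N r : ℕ) : V N r = Pool.Agent.R490.PA.D2 q ⌊(N : ℝ) ^ (1 / (r : ℝ))⌋₊ := by
  classical
  unfold V Pool.Agent.R490.PA.D2
  apply prod_congr rfl
  intro p _
  rw [nu_eq p]

lemma W_eq (N r : ℕ) : W N r = Pool.Agent.R490.PA.Wr q ⌊(N : ℝ) ^ (1 / (r : ℝ))⌋₊ := by
  classical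
  unfold W Pool.Agent.R490.PA.Wr
  apply prod_congr rfl
  intro p _
  rw [nu_eq p]

lemma P_eq (N r u Y : ℕ) : P N r u Y =
    Pool.Agent.R490.PA.Pr q ⌊(N : ℝ) ^ (1 / (r : ℝ))⌋₊ u Y := by
  classical
  unfold P Pool.Agent.R490.PA.Pr
  apply filter_congr
  intro n _
  have h1 : ⌊(N : ℝ) ^ (1 / (r : ℝ))⌋₊ < n ↔ (N : ℝ) ^ (1 / (r : ℝ)) < n := Nat.floor_lt (by positivity)
  have h2 : Pool.Agent.R490.Sg.Ro q ⌊(N : ℝ) ^ (1 / (r : ℝ))⌋₊ n ↔ Rough N r n := by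
    unfold Pool.Agent.R490.Sg.Ro Rough
    simp only [le_iff, dvd_iff]
  rw [h1, h2]

lemma Next_eq (N r T n : ℕ) : Next N r T n =
    Pool.Agent.R490.PA.Nx q ⌊(N : ℝ) ^ (1 / (r : ℝ))⌋₊ T n := by
  classical
  unfold Next Pool.Agent.R490.PA.Nx
  congr 1
  apply filter_congr
  intro m _
  unfold Pool.Agent.R490.PA.Ro2 Good
  simp only [le_iff, dvd_iff]

lemma adm0 (p : ℕ) (hp : p.Prime) : ∃ m : ℕ, ¬ p ∣ m ∧ ¬ (p : ℤ) ∣ q (m : ℤ) := by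
  by_cases h5 : p < 5
  · refine ⟨1, fun h => hp.one_lt.ne' (Nat.dvd_one.1 h), ?_⟩
    unfold q
    intro h
    have h7 : p ∣ 7 := by
      have e : (3 : ℤ) * ((1 : ℕ) : ℤ) ^ 2 + (3 : ℤ) * ((1 : ℕ) : ℤ) + (1 : ℤ) = ((7 : ℕ) : ℤ) := by norm_num
      rw [e] at h
      exact_mod_cast h
    have h8 := (Nat.dvd_prime (by norm_num : Nat.Prime 7)).1 h7
    have := hp.one_lt
    omega
  · by_contra hcon
    push Not at hcon
    have g1 := hcon 1 (fun h => by have := Nat.le_of_dvd (by norm_num) h; omega)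
    have g2 := hcon 2 (fun h => by have := Nat.le_of_dvd (by norm_num) h; omega)
    have g3 := hcon 3 (fun h => by have := Nat.le_of_dvd (by norm_num) h; omega)
    unfold q at g1 g2 g3
    have h6 := dvd_add (dvd_sub g1 (g2.mul_left 2)) g3
    have e : (3 : ℤ) * ((1 : ℕ) : ℤ) ^ 2 + (3 : ℤ) * ((1 : ℕ) : ℤ) + (1 : ℤ) -
        2 * ((3 : ℤ) * ((2 : ℕ) : ℤ) ^ 2 + (3 : ℤ) * ((2 : ℕ) : ℤ) + (1 : ℤ)) +
        ((3 : ℤ) * ((3 : ℕ) : ℤ) ^ 2 + (3 : ℤ) * ((3 : ℕ) : ℤ) + (1 : ℤ)) = ((6 : ℕ) : ℤ) := by norm_num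
    rw [e] at h6
    have h7 : p ∣ 6 := by exact_mod_cast h6
    have h8 : p ∣ 2 ∨ p ∣ 3 := (Nat.Prime.dvd_mul hp).1 h7
    rcases h8 with h8 | h8
    · have := Nat.le_of_dvd (by norm_num) h8
      omega
    · have := Nat.le_of_dvd (by norm_num) h8
      omega


lemma good (N : ℕ) (hN : 3 ≤ N) :
    Pool.Agent.R490.PA.Good 2 ((N : ℤ) ^ 1) (Pool.Agent.TH464.PW.quad 3 3 1) q where
  ev := fun x => by
    unfold Pool.Agent.TH464.PW.quad q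
    simp
  irr := Pool.Agent.TH464.PW.quad_irr 3 3 1 (by norm_num) (fun p hp h => by
    have h1 : p ∣ 1 := by exact_mod_cast h.2.2
    exact hp.one_lt.ne' (Nat.dvd_one.1 h1)) (by
    rintro ⟨m, hm⟩
    nlinarith [mul_self_nonneg m])
  deg := by rw [Pool.Agent.TH464.PW.quad_deg 3 3 1 (by norm_num)]
  degD := by rw [Pool.Agent.TH464.PW.quad_deg 3 3 1 (by norm_num)]
  hgt := fun n => by
    have hNz : (3 : ℤ) ≤ N := by exact_mod_cast hN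
    rw [pow_one]
    exact Pool.Agent.Y879.GL.quad_coeff 3 3 1 n _ (by norm_num; linarith) (by norm_num; linarith)
      (by norm_num; linarith)
  adm := adm0

/-- **The values `3 n ^ 2 + 3 n + 1` at primes `n`.** For `θ > 0`, `0 < δ ≤ 1`, `x₀` and `0 < ε ≤ 1` there is `r₀`
such that for all `r ≥ r₀` and all large `N`, for all `X ≥ N ^ θ` and all windows `(u, u + Y]` in `(0, X]` with
`Y ≥ δ X`:
(1) the number of the PRIMES `n > N ^ (1 / r)` in the window for which `3 n ^ 2 + 3 n + 1` has no prime factor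
`≤ N ^ (1 / r)` is `(1 + η) Y W / log X`, `|η| ≤ ε`;
(2) for `T V ≤ x₀` the number of the good integers in `(n, n + T]`, `n` running over the primes in (1), has
the Poisson law of mean `T V`, up to `ε`. -/
theorem result (θ δ : ℝ) (hθ : 0 < θ) (hδ : 0 < δ) (hδ1 : δ ≤ 1) (x₀ ε : ℝ) (hε : 0 < ε) (hε1 : ε ≤ 1) :
    ∃ r₀ : ℕ, 2 ≤ r₀ ∧ ∀ r : ℕ, r₀ ≤ r → ∀ᶠ N : ℕ in atTop, 0 < W N r ∧
      ∀ X : ℕ, (N : ℝ) ^ θ ≤ X → ∀ u Y : ℕ, δ * X ≤ Y → u + Y ≤ X →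
        |((P N r u Y).card : ℝ) * Real.log X - Y * W N r| ≤ ε * (Y * W N r) ∧
        ∀ T : ℕ, T * V N r ≤ x₀ → ∀ J : Finset ℕ,
          |(((P N r u Y).filter (fun n => Next N r T n ∈ J)).card : ℝ) -
            (P N r u Y).card *
              ∑ j ∈ J, Real.exp (-(T * V N r)) * (T * V N r) ^ j / j.factorial| ≤
            ε * (P N r u Y).card := by
  obtain ⟨r₀, hr₀, h0⟩ := Pool.Agent.R490.PA.primeS 2 1 (by norm_num) θ δ hθ hδ hδ1 x₀ ε hε hε1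
  refine ⟨r₀, hr₀, fun r hr => ?_⟩
  filter_upwards [h0 r hr, eventually_ge_atTop 3] with N hN hN1
  have h5 := hN _ q (good N hN1) _ rfl
  rw [← W_eq, ← V_eq] at h5
  refine ⟨h5.1, fun X hX u Y hY huY => ?_⟩
  have h6 := h5.2 X hX u Y hY huY
  rw [← P_eq] at h6
  refine ⟨h6.1, fun T hT J => ?_⟩
  have h7 := h6.2 T hT J
  simp only [Next_eq]
  exact h7

end Pool.Agent.Results.MP_22d6bb_nt.PrimeArguments
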