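import Mathlib
import Pool.Agent.R463.QuadAP

set_option autoImplicit false

/-!
# Regular points of arbitrary sets of cuban primes or almost primes

Uniformly in all progressions `n = q m + b`, `q` up to any power of `X`: almost all elements of EVERY set of `m`
for which `3 n ^ 2 + 3 n + 1` has no small prime factor, for instance of every set of `m` for which it is prime,
are regular points of the set, in all short intervals.
-/

namespace Pool.Agent.Results.MP_22d6bb_nt.RegularPoints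

open Finset Filter
open Pool.Agent.R463.PS (Regular)

/-- for `n = q m + b` the number `3 n ^ 2 + 3 n + 1` has no prime factor `p ≤ X ^ (1 / r)` -/
def Good (q b X r m : ℕ) : Prop :=
  ∀ p : ℕ, p.Prime → (p : ℝ) ≤ (X : ℝ) ^ (1 / (r : ℝ)) → ¬ p ∣ 3 * (q * m + b) ^ 2 + 3 * (q * m + b) + 1

/-- `0` for the prime factors of `q`, otherwise the number of the roots of `3 n ^ 2 + 3 n + 1` modulo `p` -/
def nu (q p : ℕ) : ℕ := if p ∣ q then 0 else ((range p).filter (fun n : ℕ => p ∣ 3 * n ^ 2 + 3 * n + 1)).card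

/-- the density: the product of `1 - nu(p) / p` over the primes `p ≤ X ^ (1 / r)` -/
noncomputable def V (q X r : ℕ) : ℝ :=
  ∏ p ∈ (Icc 1 ⌊(X : ℝ) ^ (1 / (r : ℝ))⌋₊).filter Nat.Prime, (1 - (nu q p : ℝ) / p)

/-- the product of `1 - nu(p) / p`, with `nu` for the modulus `1`, over the prime factors `p` of `q` -/
noncomputable def kappa (q : ℕ) : ℝ := ∏ p ∈ q.primeFactors, (1 - (nu 1 p : ℝ) / p)

lemma dvd_iff (p n : ℕ) : (p : ℤ) ∣ (3 : ℤ) * (n : ℤ) ^ 2 + (3 : ℤ) * n + (1 : ℤ) ↔ p ∣ 3 * n ^ 2 + 3 * n + 1 := by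
  rw [← Int.natCast_dvd_natCast (m := p)]
  push_cast
  exact Iff.of_eq (congrArg _ (by ring))

lemma good_iff (q b X r m : ℕ) : Good q b X r m ↔ Pool.Agent.R463.QA.GoodQ 3 3 1 q b X r m := by
  unfold Good Pool.Agent.R463.QA.GoodQ
  apply forall_congr'
  intro p
  have h := dvd_iff p (q * m + b)
  push_cast at h
  rw [h]

lemma nu_eq (q p : ℕ) : nu q p = Pool.Agent.R463.QA.nuQ 3 3 1 q p := by
  classical
  unfold nu Pool.Agent.R463.QA.nuQ
  have : (range p).filter (fun n : ℕ => p ∣ 3 * n ^ 2 + 3 * n + 1) =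
      (range p).filter (fun n : ℕ => (p : ℤ) ∣ (3 : ℤ) * (n : ℤ) ^ 2 + (3 : ℤ) * n + (1 : ℤ)) :=
    filter_congr fun n _ => (dvd_iff p n).symm
  rw [this]

lemma V_eq (q X r : ℕ) : V q X r = Pool.Agent.R463.QA.VQ 3 3 1 q X r := by
  unfold V Pool.Agent.R463.QA.VQ
  simp only [nu_eq]

lemma kappa_eq (q : ℕ) : kappa q = Pool.Agent.R463.QA.kap 3 3 1 q := by
  unfold kappa Pool.Agent.R463.QA.kap
  simp only [nu_eq]

lemma adm : Pool.Agent.R463.QA.Adm 3 3 1 where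
  pos := by norm_num
  prim := fun p hp h => by
    have h1 : p ∣ 1 := by exact_mod_cast h.2.2
    exact hp.one_lt.ne' (Nat.dvd_one.1 h1)
  par := by decide
  disc := by
    rintro ⟨m, hm⟩
    nlinarith [mul_self_nonneg m]


open Classical in
/-- **Regular points of arbitrary sets of almost prime values of `3 n ^ 2 + 3 n + 1` in arithmetic progressions.**

`Regular S V c δ D Y n`: every interval `(n - s, n + t]`, `s, t ≤ Y`, with `c (s + t) V ≥ 1` contains
between `c (s + t) V` and `(s + t) V / c` elements of `S`, and for all scales `1 / V ≤ 2 ^ j ≤ Y` with at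
most `D` exceptions there is a density `c ≤ lam ≤ 1 / c` such that all intervals `(n - s, n + t]`,
`s, t ≤ 2 ^ j`, contain `lam (s + t) V` elements of `S`, up to `δ 2 ^ j V`.

For every natural `A` and `θ > 0` there is `r₀` such that for all `r ≥ r₀`, `B > 0` and `ε > 0` there is
`c > 0`, and for all `δ > 0` there is `D`, such that for all large `X` the following holds uniformly for ALL
moduli `1 ≤ q ≤ X ^ A` with `κ(q) ≥ 1 / B`, ALL residues `b ≤ X ^ A` for which `q` is prime to the value at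
`b`, all intervals `(u, u + Y]` with `X ^ θ ≤ Y ≤ X`, `Y ≤ u`, and EVERY set `S` of good integers: at most
`ε Y V` elements of `S` in `(u, u + Y]` are not regular points of `S`. -/
theorem result (A : ℕ) (θ : ℝ) (hθ : 0 < θ) :
    ∃ r₀ : ℕ, 2 ≤ r₀ ∧ ∀ r : ℕ, r₀ ≤ r → ∀ B : ℝ, 0 < B → ∀ ε : ℝ, 0 < ε → ∃ c : ℝ, 0 < c ∧
      ∀ δ : ℝ, 0 < δ → ∃ D : ℕ, ∀ᶠ X : ℕ in atTop, ∀ q b : ℕ, 1 ≤ q → q ≤ X ^ A →
        b ≤ X ^ A → Nat.Coprime q (3 * b ^ 2 + 3 * b + 1) → 1 ≤ B * kappa q →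
        ∀ u Y : ℕ, (X : ℝ) ^ θ ≤ Y → Y ≤ X → Y ≤ u →
        ∀ S : Set ℕ, (∀ m ∈ S, Good q b X r m) →
          (((Ioc u (u + Y)).filter (fun m => m ∈ S ∧ ¬ Regular S (V q X r) c δ D Y m)).card : ℝ) ≤
            ε * (Y * V q X r) := by
  obtain ⟨r₀, hr₀, h⟩ := Pool.Agent.R463.QA.regQ 3 3 1 adm A θ hθ
  refine ⟨r₀, hr₀, fun r hr B hB ε hε => ?_⟩
  obtain ⟨c, hc, h1⟩ := h r hr B hB ε hε
  refine ⟨c, hc, fun δ hδ => ?_⟩
  obtain ⟨D, h2⟩ := h1 δ hδ
  refine ⟨D, ?_⟩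
  filter_upwards [h2] with X h1 q b hq hqX hbX hcop hk u Y hY hYX hYu S hS
  have hcop' : IsCoprime (q : ℤ) ((3 : ℤ) * (b : ℤ) ^ 2 + (3 : ℤ) * b + (1 : ℤ)) := by
    have h5 := Nat.isCoprime_iff_coprime.2 hcop
    push_cast at h5
    have e : ((3 : ℤ) * (b : ℤ) ^ 2 + (3 : ℤ) * b + (1 : ℤ)) = 3 * (b : ℤ) ^ 2 + 3 * (b : ℤ) + 1 := by ring
    rw [e]
    exact h5
  rw [kappa_eq] at hk
  rw [V_eq]
  exact h1 q b hq hqX hbX hcop' hk u Y hY hYX hYu S (fun m hm => (good_iff q b X r m).1 (hS m hm))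

end Pool.Agent.Results.MP_22d6bb_nt.RegularPoints
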